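import Pool.Agent.H31.TRI.IB

/-! # The energy identity -/

set_option autoImplicit false

namespace Pool.Agent.H31.TRI

open MeasureTheory Set Filter Topology
open scoped ContDiff Convolution

variable {n : ℕ}

theorem ene_space (hS : T_SUP) (hL : T_L12) {f : E n → ℝ} (hf : TF f) {s : ℝ} (hs : 0 < s) :
    ∫ x, 2 * heat f s x * heat (lap f) s x = -(2 * ∫ x, ∑ i, heat (pd i f) s x ^ 2) := by
  have h1 : ∀ x, 2 * heat f s x * heat (lap f) s x =
      2 * ∑ i, heat f s x * heat (pd i (pd i f)) s x := by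
    intro x
    rw [heat_lap hf, ← Finset.mul_sum]
    ring
  simp_rw [h1]
  rw [integral_const_mul, integral_finsetSum _ fun i _ => int2 hS hL hf ((hf.pd i).pd i) hs,
    integral_finsetSum]
  · rw [← mul_neg, ← Finset.sum_neg_distrib]
    congr 1
    refine Finset.sum_congr rfl fun i _ => ?_
    rw [ibpp hS hL hf (hf.pd i) hs i]
    simp only [sq]
  · intro i _
    simpa only [sq] using int2 hS hL (hf.pd i) (hf.pd i) hs

theorem ene_slab (hC : T_CONT) (hS : T_SUP) (hL : T_L12) {f : E n → ℝ} (hf : TF f) {a A : ℝ}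
    (ha : 0 < a) (hA : a ≤ A) :
    IntegrableOn (fun p : ℝ × E n => ∑ i, heat (pd i f) p.1 p.2 ^ 2) (Ioc a A ×ˢ univ) ∧
    (∫ p in Ioc a A ×ˢ (univ : Set (E n)), ∑ i, heat (pd i f) p.1 p.2 ^ 2) ≤
      (∫ x, f x ^ 2) / 2 := by
  obtain ⟨C, hC0, hCb⟩ := heat_bdd hS hf
  have hi : IntegrableOn (fun p : ℝ × E n => ∑ i, heat (pd i f) p.1 p.2 ^ 2)
      (Ioc a A ×ˢ univ) := by
    refine integrable_finsetSum _ fun i _ => ?_
    obtain ⟨D, hD0, hDb⟩ := heat_bdd hS (hf.pd i)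
    refine slab_bound hC hL (hf.pd i) ha ((hC n _ (hf.pd i)).pow 2) (C := D) fun s x hs => ?_
    rw [abs_pow, sq]
    exact mul_le_mul_of_nonneg_right (hDb s x hs) (abs_nonneg _)
  refine ⟨hi, ?_⟩
  have hd : ∀ s x, 0 < s → HasDerivAt (fun t => heat f t x ^ 2)
      (2 * heat f s x * heat (lap f) s x) s := by
    intro s x hs
    have h1 := (pf_HEQ n f s x hs hf).pow 2
    refine h1.congr_deriv ?_
    push_cast
    ring
  have hcont : ContinuousOn (fun p : ℝ × E n => 2 * heat f p.1 p.2 * heat (lap f) p.1 p.2)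
      (HS n) := ((hC n f hf).const_smul (2 : ℝ)).mul (hC n _ hf.lap)
  obtain ⟨D, hD0, hDb⟩ := heat_bdd hS hf.lap
  have hi2 : IntegrableOn (fun p : ℝ × E n => 2 * heat f p.1 p.2 * heat (lap f) p.1 p.2)
      (Ioc a A ×ˢ univ) := by
    refine slab_bound hC hL hf ha hcont (C := 2 * D) fun s x hs => ?_
    rw [abs_mul, abs_mul, abs_of_pos (by norm_num : (0 : ℝ) < 2)]
    nlinarith [hDb s x hs, abs_nonneg (heat f s x)]
  have h2 := slab_ftc (Φ := fun s x => heat f s x ^ 2)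
    (Φ' := fun s x => 2 * heat f s x * heat (lap f) s x) ha hA hd hcont hi2
    (hL n f a ha hf).2.2.1 (hL n f A (ha.trans_le hA) hf).2.2.1
  have h3 : ∫ s in Ioc a A, ∫ x, 2 * heat f s x * heat (lap f) s x =
      ∫ s in Ioc a A, -(2 * ∫ x, ∑ i, heat (pd i f) s x ^ 2) :=
    setIntegral_congr_fun measurableSet_Ioc fun s hs => ene_space hS hL hf (ha.trans hs.1)
  have h4 : ∫ p in Ioc a A ×ˢ (univ : Set (E n)), ∑ i, heat (pd i f) p.1 p.2 ^ 2 =
      ∫ s in Ioc a A, ∫ x, ∑ i, heat (pd i f) s x ^ 2 := by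
    have h5 := setIntegral_prod (μ := (volume : Measure ℝ)) (ν := (volume : Measure (E n)))
      (fun p : ℝ × E n => ∑ i, heat (pd i f) p.1 p.2 ^ 2) hi
    rw [Measure.restrict_univ] at h5
    exact h5
  rw [h4]
  rw [h3, integral_neg, integral_const_mul] at h2
  have h6 : 0 ≤ ∫ x, heat f A x ^ 2 := integral_nonneg fun x => sq_nonneg _
  have h7 := (hL n f a ha hf).2.2.2
  linarith

theorem pf_ENE (hC : T_CONT) (hS : T_SUP) (hL : T_L12) : T_ENE := by
  intro n f hf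
  have hcov := slab_cover (n := n)
  have hnn : ∀ p : ℝ × E n, 0 ≤ ∑ i, heat (pd i f) p.1 p.2 ^ 2 := fun p =>
    Finset.sum_nonneg fun i _ => sq_nonneg _
  have hk : ∀ k : ℕ, (0 : ℝ) < 1 / ((k : ℝ) + 1) ∧ 1 / ((k : ℝ) + 1) ≤ (k : ℝ) + 1 := by
    intro k
    have : (0 : ℝ) ≤ k := Nat.cast_nonneg k
    refine ⟨by positivity, ?_⟩
    rw [div_le_iff₀ (by positivity)]
    nlinarith
  have h1 : ∀ k : ℕ, IntegrableOn (fun p : ℝ × E n => ∑ i, heat (pd i f) p.1 p.2 ^ 2)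
      (Ioc (1 / ((k : ℝ) + 1)) ((k : ℝ) + 1) ×ˢ univ)
      ((volume : Measure (ℝ × E n)).restrict (HS n)) := by
    intro k
    rw [IntegrableOn, slab_restrict (hk k).1]
    exact (ene_slab hC hS hL hf (hk k).1 (hk k).2).1
  have h2 : ∀ k : ℕ, (∫ p in Ioc (1 / ((k : ℝ) + 1)) ((k : ℝ) + 1) ×ˢ (univ : Set (E n)),
      ∑ i, heat (pd i f) p.1 p.2 ^ 2 ∂((volume : Measure (ℝ × E n)).restrict (HS n))) ≤
      (∫ x, f x ^ 2) / 2 := by
    intro k
    rw [slab_restrict (hk k).1]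
    exact (ene_slab hC hS hL hf (hk k).1 (hk k).2).2
  have h3 : Integrable (fun p : ℝ × E n => ∑ i, heat (pd i f) p.1 p.2 ^ 2)
      ((volume : Measure (ℝ × E n)).restrict (HS n)) :=
    hcov.integrable_of_integral_bounded_of_nonneg_ae _ h1 (Eventually.of_forall hnn)
      (Eventually.of_forall h2)
  refine ⟨h3, ?_⟩
  have h4 := hcov.integral_tendsto_of_countably_generated h3
  exact le_of_tendsto h4 (Eventually.of_forall h2)

end Pool.Agent.H31.TRI
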