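import Pool.Agent.H31.TRI.HID

/-! # The heat identity: limits -/

set_option autoImplicit false

namespace Pool.Agent.H31.TRI

open MeasureTheory Set Filter Topology
open scoped ContDiff Convolution

variable {n : ℕ}

theorem tf_int {f : E n → ℝ} (hf : TF f) : Integrable f :=
  hf.1.continuous.integrable_of_hasCompactSupport hf.2

theorem tf_int3 {f g h : E n → ℝ} (hf : TF f) (hg : TF g) (hh : TF h) :
    Integrable (fun x => f x * g x * h x) :=
  ((hf.1.continuous.mul hg.1.continuous).mul hh.1.continuous).integrable_of_hasCompactSupport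
    (hf.2.mul_right.mul_right)

/-- convergence of the trilinear form for `s → 0` -/
theorem lim0 (hS : T_SUP) (hL : T_L12) (hZ : T_ZER) {f g h : E n → ℝ} (hf : TF f) (hg : TF g)
    (hh : TF h) : ∃ C : ℝ, ∀ s : ℝ, 0 < s →
    |(∫ x, heat f s x * heat g s x * heat h s x) - ∫ x, f x * g x * h x| ≤ C * √s := by
  obtain ⟨Cf, hCf⟩ := hZ n f hf
  obtain ⟨Cg, hCg⟩ := hZ n g hg
  obtain ⟨Ch, hCh⟩ := hZ n h hh
  obtain ⟨G, hG⟩ := hg.bdd
  obtain ⟨H, hH0, hH⟩ := heat_bdd hS hh
  refine ⟨|Cf| * H * (∫ x, |g x|) + |Cg| * H * (∫ x, |f x|) + |G| * |Ch| * ∫ x, |f x|,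
    fun s hs => ?_⟩
  have i1 := int3 hS hL hf hg hh hs
  have i2 := tf_int3 hf hg hh
  rw [← integral_sub i1 i2]
  have hr : 0 ≤ √s := Real.sqrt_nonneg s
  have hb : ∀ x, |heat f s x * heat g s x * heat h s x - f x * g x * h x| ≤
      |Cf| * H * √s * |heat g s x| + |Cg| * H * √s * |f x| + |G| * |Ch| * √s * |f x| := by
    intro x
    have e1 : heat f s x * heat g s x * heat h s x - f x * g x * h x =
        (heat f s x - f x) * heat g s x * heat h s x + f x * (heat g s x - g x) * heat h s x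
          + f x * g x * (heat h s x - h x) := by ring
    rw [e1]
    have a1 : |heat f s x - f x| ≤ |Cf| * √s :=
      (hCf s x hs).trans (mul_le_mul_of_nonneg_right (le_abs_self _) hr)
    have a2 : |heat g s x - g x| ≤ |Cg| * √s :=
      (hCg s x hs).trans (mul_le_mul_of_nonneg_right (le_abs_self _) hr)
    have a3 : |heat h s x - h x| ≤ |Ch| * √s :=
      (hCh s x hs).trans (mul_le_mul_of_nonneg_right (le_abs_self _) hr)
    have a4 := hH s x hs
    have a5 : |g x| ≤ |G| := (hG x).trans (le_abs_self _)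
    refine (abs_add_three _ _ _).trans ?_
    simp only [abs_mul]
    have b1 : |heat f s x - f x| * |heat g s x| * |heat h s x| ≤ |Cf| * H * √s * |heat g s x| := by
      have := mul_le_mul a1 a4 (abs_nonneg _) (by positivity)
      nlinarith [abs_nonneg (heat g s x)]
    have b2 : |f x| * |heat g s x - g x| * |heat h s x| ≤ |Cg| * H * √s * |f x| := by
      have := mul_le_mul a2 a4 (abs_nonneg _) (by positivity)
      nlinarith [abs_nonneg (f x)]
    have b3 : |f x| * |g x| * |heat h s x - h x| ≤ |G| * |Ch| * √s * |f x| := by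
      have := mul_le_mul a5 a3 (abs_nonneg _) (abs_nonneg _)
      nlinarith [abs_nonneg (f x)]
    linarith
  have i3 : Integrable (fun x => |Cf| * H * √s * |heat g s x| + |Cg| * H * √s * |f x| +
      |G| * |Ch| * √s * |f x|) :=
    (((hL n g s hs hg).1.abs.const_mul _).add ((tf_int hf).abs.const_mul _)).add
      ((tf_int hf).abs.const_mul _)
  refine (abs_integral_le_integral_abs).trans ?_
  refine (integral_mono (i1.sub i2).abs i3 hb).trans ?_
  have j1 : Integrable (fun x => |Cf| * H * √s * |heat g s x|) :=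
    (hL n g s hs hg).1.abs.const_mul _
  have j2 : Integrable (fun x => |Cg| * H * √s * |f x|) := (tf_int hf).abs.const_mul _
  have j3 : Integrable (fun x => |G| * |Ch| * √s * |f x|) := (tf_int hf).abs.const_mul _
  have j12 : Integrable (fun x => |Cf| * H * √s * |heat g s x| + |Cg| * H * √s * |f x|) :=
    j1.add j2
  have j4 := integral_add j12 j3
  have j5 := integral_add j1 j2
  simp only [integral_const_mul] at j4 j5
  rw [j4, j5]
  have h7 := (hL n g s hs hg).2.1
  have h8 : |Cf| * H * √s * ∫ x, |heat g s x| ≤ |Cf| * H * √s * ∫ x, |g x| :=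
    mul_le_mul_of_nonneg_left h7 (by positivity)
  nlinarith

/-- decay of the trilinear form for `s → ∞` -/
theorem limI (hS : T_SUP) (hL : T_L12) (hD : T_DEC1) {f g h : E n → ℝ} (hf : TF f) (hg : TF g)
    (hh : TF h) : ∃ C : ℝ, ∀ s : ℝ, 0 < s →
    |∫ x, heat f s x * heat g s x * heat h s x| ≤ C * (4 * Real.pi * s) ^ (-(n : ℝ) / 2) := by
  obtain ⟨H, hH0, hH⟩ := heat_bdd hS hh
  refine ⟨(∫ x, |f x|) * H * ∫ x, |g x|, fun s hs => ?_⟩
  have i1 := int3 hS hL hf hg hh hs
  have hp : 0 ≤ (4 * Real.pi * s) ^ (-(n : ℝ) / 2) := by positivity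
  have hf0 : 0 ≤ ∫ x, |f x| := integral_nonneg fun x => abs_nonneg _
  refine (abs_integral_le_integral_abs).trans ?_
  have hb : ∀ x, |heat f s x * heat g s x * heat h s x| ≤
      ((4 * Real.pi * s) ^ (-(n : ℝ) / 2) * (∫ y, |f y|) * H) * |heat g s x| := by
    intro x
    rw [abs_mul, abs_mul]
    have h1 := hD n f s x hs hf
    have h2 := mul_le_mul h1 (hH s x hs) (abs_nonneg _) (by positivity)
    nlinarith [abs_nonneg (heat g s x)]
  refine (integral_mono i1.abs ((hL n g s hs hg).1.abs.const_mul _) hb).trans ?_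
  rw [integral_const_mul]
  have h7 := (hL n g s hs hg).2.1
  have h8 := mul_le_mul_of_nonneg_left h7
    (by positivity : 0 ≤ (4 * Real.pi * s) ^ (-(n : ℝ) / 2) * (∫ y, |f y|) * H)
  linarith

theorem pf_HID (hC : T_CONT) (hS : T_SUP) (hL : T_L12) (hZ : T_ZER) (hD : T_DEC1) : T_HID := by
  intro n b g G hb hg hG hdiv hW
  rcases Nat.eq_zero_or_pos n with hn | hn
  · subst hn
    simp
  have hk : ∀ k : ℕ, (0 : ℝ) < 1 / ((k : ℝ) + 1) ∧ 1 / ((k : ℝ) + 1) ≤ (k : ℝ) + 1 := by
    intro k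
    have : (0 : ℝ) ≤ k := Nat.cast_nonneg k
    refine ⟨by positivity, ?_⟩
    rw [div_le_iff₀ (by positivity)]
    nlinarith
  -- the function and its derivative
  set Φ : ℝ → E n → ℝ := fun s x => ∑ j, heat b s x * heat (G j) s x * heat (pd j g) s x with hΦ
  set Φ' : ℝ → E n → ℝ := fun s x => ∑ j, (heat (lap b) s x * heat (G j) s x * heat (pd j g) s x
      + heat b s x * heat (lap (G j)) s x * heat (pd j g) s x
      + heat b s x * heat (G j) s x * heat (lap (pd j g)) s x) with hΦ'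
  have hd : ∀ s x, 0 < s → HasDerivAt (fun t => Φ t x) (Φ' s x) s := by
    intro s x hs
    refine HasDerivAt.fun_sum fun j _ => ?_
    have h1 := ((pf_HEQ n b s x hs hb).mul (pf_HEQ n (G j) s x hs (hG j))).mul
      (pf_HEQ n (pd j g) s x hs (hg.pd j))
    refine h1.congr_deriv ?_
    simp only [Pi.mul_apply]
    ring
  have hc3 : ∀ u v w : E n → ℝ, TF u → TF v → TF w → ContinuousOn
      (fun p : ℝ × E n => heat u p.1 p.2 * heat v p.1 p.2 * heat w p.1 p.2) (HS n) :=
    fun u v w hu hv hw => ((hC n u hu).mul (hC n v hv)).mul (hC n w hw)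
  have hi3 : ∀ u v w : E n → ℝ, TF u → TF v → TF w → ∀ a A : ℝ, 0 < a → IntegrableOn
      (fun p : ℝ × E n => heat u p.1 p.2 * heat v p.1 p.2 * heat w p.1 p.2)
      (Ioc a A ×ˢ univ) := by
    intro u v w hu hv hw a A ha
    obtain ⟨V, hV0, hV⟩ := heat_bdd hS hv
    obtain ⟨W, hW0, hW⟩ := heat_bdd hS hw
    refine slab_bound hC hL hu ha (hc3 u v w hu hv hw) (C := V * W) fun s x hs => ?_
    rw [abs_mul, abs_mul]
    have := mul_le_mul (hV s x hs) (hW s x hs) (abs_nonneg _) hV0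
    nlinarith [abs_nonneg (heat u s x)]
  have hcΦ : ContinuousOn (fun p : ℝ × E n => Φ' p.1 p.2) (HS n) := by
    refine continuousOn_finsetSum _ fun j _ => ?_
    exact ((hc3 _ _ _ hb.lap (hG j) (hg.pd j)).add (hc3 _ _ _ hb (hG j).lap (hg.pd j))).add
      (hc3 _ _ _ hb (hG j) (hg.pd j).lap)
  have hiΦ : ∀ a A : ℝ, 0 < a → IntegrableOn (fun p : ℝ × E n => Φ' p.1 p.2)
      (Ioc a A ×ˢ univ) := by
    intro a A ha
    refine integrable_finsetSum _ fun j _ => ?_
    exact ((hi3 _ _ _ hb.lap (hG j) (hg.pd j) a A ha).add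
      (hi3 _ _ _ hb (hG j).lap (hg.pd j) a A ha)).add
      (hi3 _ _ _ hb (hG j) (hg.pd j).lap a A ha)
  have hI : ∀ s, 0 < s → Integrable (Φ s) := fun s hs =>
    integrable_finsetSum _ fun j _ => int3 hS hL hb (hG j) (hg.pd j) hs
  have hWc : (∫ p in Ioi (0 : ℝ) ×ˢ (univ : Set (E n)), hidW b g G p.1 p.2) =
      ∫ p, hidW b g G p.1 p.2 ∂((volume : Measure (ℝ × E n)).restrict (HS n)) := rfl
  -- slab identity
  have hslab : ∀ k : ℕ, (∫ x, Φ (1 / ((k : ℝ) + 1)) x) = (∫ x, Φ ((k : ℝ) + 1) x) +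
      2 * ∫ p in Ioc (1 / ((k : ℝ) + 1)) ((k : ℝ) + 1) ×ˢ (univ : Set (E n)),
        hidW b g G p.1 p.2 ∂((volume : Measure (ℝ × E n)).restrict (HS n)) := by
    intro k
    obtain ⟨ha, hA⟩ := hk k
    have h1 := slab_ftc ha hA hd hcΦ (hiΦ _ _ ha) (hI _ ha) (hI _ (ha.trans_le hA))
    have h2 : ∫ s in Ioc (1 / ((k : ℝ) + 1)) ((k : ℝ) + 1), ∫ x, Φ' s x =
        ∫ s in Ioc (1 / ((k : ℝ) + 1)) ((k : ℝ) + 1), -(2 * ∫ x, hidW b g G s x) :=
      setIntegral_congr_fun measurableSet_Ioc fun s hs =>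
        hid_space hS hL hb hg hG hdiv (ha.trans hs.1)
    rw [slab_restrict ha]
    have hWi : IntegrableOn (fun p : ℝ × E n => hidW b g G p.1 p.2)
        (Ioc (1 / ((k : ℝ) + 1)) ((k : ℝ) + 1) ×ˢ univ) := IntegrableOn.mono_set hW (slab_sub ha)
    have h5 := setIntegral_prod (μ := (volume : Measure ℝ)) (ν := (volume : Measure (E n)))
      (fun p : ℝ × E n => hidW b g G p.1 p.2) hWi
    rw [Measure.restrict_univ] at h5
    have h6 : ∫ p in Ioc (1 / ((k : ℝ) + 1)) ((k : ℝ) + 1) ×ˢ (univ : Set (E n)),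
        hidW b g G p.1 p.2 = ∫ s in Ioc (1 / ((k : ℝ) + 1)) ((k : ℝ) + 1),
          ∫ x, hidW b g G s x := h5
    rw [h6]
    rw [h2, integral_neg, integral_const_mul] at h1
    linarith
  -- limits
  have hT0 : Tendsto (fun k : ℕ => 1 / ((k : ℝ) + 1)) atTop (𝓝 0) :=
    tendsto_one_div_add_atTop_nhds_zero_nat
  have l1 : Tendsto (fun k : ℕ => ∫ x, Φ (1 / ((k : ℝ) + 1)) x) atTop
      (𝓝 (∑ j, ∫ x, b x * G j x * pd j g x)) := by
    have h1 : ∀ k : ℕ, ∫ x, Φ (1 / ((k : ℝ) + 1)) x =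
        ∑ j, ∫ x, heat b (1 / ((k : ℝ) + 1)) x * heat (G j) (1 / ((k : ℝ) + 1)) x *
          heat (pd j g) (1 / ((k : ℝ) + 1)) x := fun k =>
      integral_finsetSum _ fun j _ => int3 hS hL hb (hG j) (hg.pd j) (hk k).1
    simp_rw [h1]
    refine tendsto_finsetSum _ fun j _ => ?_
    obtain ⟨C, hC'⟩ := lim0 hS hL hZ hb (hG j) (hg.pd j)
    rw [tendsto_iff_dist_tendsto_zero]
    refine squeeze_zero (fun _ => dist_nonneg) (fun k => ?_)
      (g := fun k : ℕ => C * √(1 / ((k : ℝ) + 1))) ?_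
    · rw [Real.dist_eq]
      exact hC' _ (hk k).1
    · have h2 : Tendsto (fun k : ℕ => √(1 / ((k : ℝ) + 1))) atTop (𝓝 (√0)) :=
        (Real.continuous_sqrt.tendsto 0).comp hT0
      rw [Real.sqrt_zero] at h2
      simpa using h2.const_mul C
  have l2 : Tendsto (fun k : ℕ => ∫ x, Φ ((k : ℝ) + 1) x) atTop (𝓝 0) := by
    have h1 : ∀ k : ℕ, ∫ x, Φ ((k : ℝ) + 1) x =
        ∑ j, ∫ x, heat b ((k : ℝ) + 1) x * heat (G j) ((k : ℝ) + 1) x *
          heat (pd j g) ((k : ℝ) + 1) x := fun k =>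
      integral_finsetSum _ fun j _ => int3 hS hL hb (hG j) (hg.pd j) (by positivity)
    simp_rw [h1]
    have h0 : (0 : ℝ) = ∑ _j : Fin n, (0 : ℝ) := by simp
    rw [h0]
    refine tendsto_finsetSum _ fun j _ => ?_
    obtain ⟨C, hC'⟩ := limI hS hL hD hb (hG j) (hg.pd j)
    refine squeeze_zero_norm (a := fun k : ℕ => C * (4 * Real.pi * ((k : ℝ) + 1)) ^
      (-(n : ℝ) / 2)) (fun k => ?_) ?_
    · rw [Real.norm_eq_abs]
      exact hC' _ (by positivity)
    · have h3 : Tendsto (fun k : ℕ => 4 * Real.pi * ((k : ℝ) + 1)) atTop atTop := by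
        refine Tendsto.const_mul_atTop (by positivity) ?_
        exact tendsto_atTop_add_const_right _ _ tendsto_natCast_atTop_atTop
      have h4 : Tendsto (fun t : ℝ => t ^ (-((n : ℝ) / 2))) atTop (𝓝 0) :=
        tendsto_rpow_neg_atTop (by positivity)
      have h5 := (h4.comp h3).const_mul C
      simp only [mul_zero] at h5
      refine h5.congr fun k => ?_
      simp only [Function.comp_apply, neg_div]
  have l3 := (slab_cover (n := n)).integral_tendsto_of_countably_generated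
    (f := fun p : ℝ × E n => hidW b g G p.1 p.2) hW
  have l4 : Tendsto (fun k : ℕ => ∫ x, Φ (1 / ((k : ℝ) + 1)) x) atTop
      (𝓝 (0 + 2 * ∫ p, hidW b g G p.1 p.2 ∂((volume : Measure (ℝ × E n)).restrict (HS n)))) := by
    refine (l2.add (l3.const_mul 2)).congr fun k => ?_
    exact (hslab k).symm
  have h10 := tendsto_nhds_unique l1 l4
  have h11 : (∫ x, b x * ∑ j, G j x * pd j g x) = ∑ j, ∫ x, b x * G j x * pd j g x := by
    rw [← integral_finsetSum _ fun j _ => tf_int3 hb (hG j) (hg.pd j)]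
    congr 1
    ext x
    rw [Finset.mul_sum]
    exact Finset.sum_congr rfl fun j _ => by ring
  rw [h11, h10, zero_add]
  rfl

end Pool.Agent.H31.TRI
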