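import Mathlib

/-!
# Heat extension of test functions on `ℝⁿ`: definitions and the list of facts (REG, part C)
-/

set_option autoImplicit false

namespace Pool.Agent.H31.TRI

open MeasureTheory Set Filter Topology
open scoped ContDiff

abbrev E (n : ℕ) := EuclideanSpace ℝ (Fin n)

/-- the Gaussian kernel `K_s(x) = (4πs)^(-n/2) exp(-|x|²/(4s))` -/
noncomputable def K {n : ℕ} (s : ℝ) (x : E n) : ℝ :=
  (4 * Real.pi * s) ^ (-(n : ℝ) / 2) * Real.exp (-(‖x‖ ^ 2 / (4 * s)))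

/-- the heat extension `f_s(x) = ∫ K_s(y) f(x - y) dy` -/
noncomputable def heat {n : ℕ} (f : E n → ℝ) (s : ℝ) (x : E n) : ℝ := ∫ y, K s y * f (x - y)

/-- test functions -/
def TF {n : ℕ} (f : E n → ℝ) : Prop := ContDiff ℝ ∞ f ∧ HasCompactSupport f

/-- unit vectors -/
noncomputable def ee {n : ℕ} (i : Fin n) : E n := EuclideanSpace.single i 1

/-- partial derivative -/
noncomputable def pd {n : ℕ} (i : Fin n) (f : E n → ℝ) (x : E n) : ℝ := fderiv ℝ f x (ee i)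

/-- Laplacian -/
noncomputable def lap {n : ℕ} (f : E n → ℝ) (x : E n) : ℝ := ∑ i, pd i (pd i f) x

/-! ## Facts -/

/-- the kernel -/
def T_KER : Prop := ∀ n : ℕ, ∀ s : ℝ, 0 < s → Integrable (K s : E n → ℝ) ∧ ∫ x : E n, K s x = 1

/-- partial derivatives of test functions -/
def T_TFD : Prop := ∀ (n : ℕ) (f : E n → ℝ) (i : Fin n), TF f → TF (pd i f)

/-- semigroup property of the kernel -/
def T_SG : Prop := ∀ (n : ℕ) (s t : ℝ) (x : E n), 0 < s → 0 < t →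
  ∫ y, K s y * K t (x - y) = K (s + t) x

/-- sup bounds -/
def T_SUP : Prop := ∀ (n : ℕ) (f : E n → ℝ) (C s : ℝ) (x : E n), 0 < s → Continuous f →
  (∀ y, |f y| ≤ C) → |heat f s x| ≤ C

def T_DEC1 : Prop := ∀ (n : ℕ) (f : E n → ℝ) (s : ℝ) (x : E n), 0 < s → TF f →
  |heat f s x| ≤ (4 * Real.pi * s) ^ (-(n : ℝ) / 2) * ∫ y, |f y|

/-- joint continuity -/
def T_CONT : Prop := ∀ (n : ℕ) (f : E n → ℝ), TF f →
  ContinuousOn (fun p : ℝ × E n => heat f p.1 p.2) (Ioi 0 ×ˢ univ)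

/-- derivatives in space -/
def T_SPD : Prop := ∀ (n : ℕ) (f : E n → ℝ) (s : ℝ), 0 < s → TF f →
  ContDiff ℝ ∞ (heat f s) ∧ ∀ (i : Fin n) (x : E n), pd i (heat f s) x = heat (pd i f) s x

/-- the heat equation -/
def T_HEQ : Prop := ∀ (n : ℕ) (f : E n → ℝ) (s : ℝ) (x : E n), 0 < s → TF f →
  HasDerivAt (fun t => heat f t x) (heat (lap f) s x) s

/-- convergence for `s → 0` -/
def T_ZER : Prop := ∀ (n : ℕ) (f : E n → ℝ), TF f →
  ∃ C : ℝ, ∀ (s : ℝ) (x : E n), 0 < s → |heat f s x - f x| ≤ C * √s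

/-- integrability and `L¹`, `L²` contraction -/
def T_L12 : Prop := ∀ (n : ℕ) (f : E n → ℝ) (s : ℝ), 0 < s → TF f →
  Integrable (heat f s) ∧ (∫ x, |heat f s x|) ≤ ∫ x, |f x| ∧
  Integrable (fun x => heat f s x ^ 2) ∧ (∫ x, heat f s x ^ 2) ≤ ∫ x, f x ^ 2

/-- the energy identity (as an inequality) -/
def T_ENE : Prop := ∀ (n : ℕ) (f : E n → ℝ), TF f →
  IntegrableOn (fun p : ℝ × E n => ∑ i, heat (pd i f) p.1 p.2 ^ 2) (Ioi 0 ×ˢ univ) ∧
  (∫ p in Ioi (0 : ℝ) ×ˢ (univ : Set (E n)), ∑ i, heat (pd i f) p.1 p.2 ^ 2) ≤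
    (∫ x, f x ^ 2) / 2

/-- the heat identity: `b`, `g`, `G i` test functions, `div G = 0` -/
def T_HID : Prop := ∀ (n : ℕ) (b g : E n → ℝ) (G : Fin n → E n → ℝ), TF b → TF g →
  (∀ i, TF (G i)) → (∀ x, ∑ i, pd i (G i) x = 0) →
  IntegrableOn (fun p : ℝ × E n => ∑ i, ∑ j,
    (heat (pd i b) p.1 p.2 * heat (pd i (G j)) p.1 p.2 * heat (pd j g) p.1 p.2
      + heat (pd i b) p.1 p.2 * heat (G j) p.1 p.2 * heat (pd j (pd i g)) p.1 p.2
      - heat (pd j b) p.1 p.2 * heat (pd i (G j)) p.1 p.2 * heat (pd i g) p.1 p.2))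
    (Ioi 0 ×ˢ univ) →
  (∫ x, b x * ∑ j, G j x * pd j g x) = 2 * ∫ p in Ioi (0 : ℝ) ×ˢ (univ : Set (E n)), ∑ i, ∑ j,
    (heat (pd i b) p.1 p.2 * heat (pd i (G j)) p.1 p.2 * heat (pd j g) p.1 p.2
      + heat (pd i b) p.1 p.2 * heat (G j) p.1 p.2 * heat (pd j (pd i g)) p.1 p.2
      - heat (pd j b) p.1 p.2 * heat (pd i (G j)) p.1 p.2 * heat (pd i g) p.1 p.2)

end Pool.Agent.H31.TRI
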