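import Pool.Agent.H31.TRI.SPD

/-! # The heat equation -/

set_option autoImplicit false

namespace Pool.Agent.H31.TRI

open MeasureTheory Set Filter Topology
open scoped ContDiff Convolution

variable {n : ℕ}

theorem K_pos {s : ℝ} (hs : 0 < s) (x : E n) : 0 < K s x := by
  unfold K
  positivity

theorem K_deriv {s : ℝ} (hs : 0 < s) (y : E n) :
    HasDerivAt (fun t => K t y) ((‖y‖ ^ 2 / (4 * s ^ 2) - n / (2 * s)) * K s y) s := by
  unfold K
  have h1 : HasDerivAt (fun t : ℝ => (4 * Real.pi * t) ^ (-(n : ℝ) / 2))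
      (-(n : ℝ) / (2 * s) * (4 * Real.pi * s) ^ (-(n : ℝ) / 2)) s := by
    have h2 : HasDerivAt (fun t : ℝ => 4 * Real.pi * t) (4 * Real.pi) s := by
      simpa using (hasDerivAt_id s).const_mul (4 * Real.pi)
    have h3 := h2.rpow_const (p := -(n : ℝ) / 2) (Or.inl (by positivity))
    refine h3.congr_deriv ?_
    rw [Real.rpow_sub_one (by positivity)]
    field_simp
  have h4 : HasDerivAt (fun t : ℝ => -(‖y‖ ^ 2 / (4 * t))) (‖y‖ ^ 2 / (4 * s ^ 2)) s := by
    have h5 : HasDerivAt (fun t : ℝ => 4 * t) 4 s := by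
      simpa using (hasDerivAt_id s).const_mul (4 : ℝ)
    have h6 := ((hasDerivAt_const s (‖y‖ ^ 2)).div h5 (by positivity)).neg
    refine h6.congr_deriv ?_
    field_simp
    ring
  have h7 := h1.mul h4.exp
  refine h7.congr_deriv ?_
  ring

theorem K_pd {s : ℝ} (hs : 0 < s) (i : Fin n) (y : E n) :
    pd i (K s) y = -(y i / (2 * s)) * K s y := by
  have h1 : HasFDerivAt (fun x : E n => ‖x‖ ^ 2) ((2 : ℝ) • innerSL ℝ y) y := by
    have h := (hasStrictFDerivAt_norm_sq y).hasFDerivAt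
    rw [two_nsmul] at h
    rw [two_smul]
    exact h
  have h4 : (K s : E n → ℝ) = fun y : E n =>
      (4 * Real.pi * s) ^ (-(n : ℝ) / 2) * Real.exp (-(‖y‖ ^ 2 * (4 * s)⁻¹)) := by
    ext z
    simp [K, div_eq_mul_inv]
  have h3 := (((h1.mul_const ((4 * s)⁻¹)).neg).exp).const_mul ((4 * Real.pi * s) ^ (-(n : ℝ) / 2))
  have h2 : HasFDerivAt (K s : E n → ℝ) ((4 * Real.pi * s) ^ (-(n : ℝ) / 2) •
      (Real.exp (-(‖y‖ ^ 2 * (4 * s)⁻¹)) •
        (-((4 * s)⁻¹ • ((2 : ℝ) • innerSL ℝ y) : E n →L[ℝ] ℝ)))) y := by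
    rw [h4]
    exact h3
  have h5 : (innerSL ℝ y) (ee i) = y i := by
    simp [ee, innerSL_apply_apply, EuclideanSpace.inner_single_right]
  unfold pd
  rw [h2.fderiv, h4]
  simp only [FunLike.coe_smul, Pi.smul_apply, neg_apply, h5, smul_eq_mul]
  field_simp
  ring

theorem K_pd2 {s : ℝ} (hs : 0 < s) (i : Fin n) (y : E n) :
    pd i (pd i (K s)) y = (y i ^ 2 / (4 * s ^ 2) - 1 / (2 * s)) * K s y := by
  have h1 : pd i (K s : E n → ℝ) = fun y => -(y i / (2 * s)) * K s y := by
    ext z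
    exact K_pd hs i z
  have h2 : HasFDerivAt (K s : E n → ℝ) (fderiv ℝ (K s) y) y :=
    (((K_smooth s).differentiable (by simp)) y).hasFDerivAt
  have h3 : HasFDerivAt (fun y : E n => y i) (EuclideanSpace.proj (𝕜 := ℝ) i : E n →L[ℝ] ℝ) y :=
    (EuclideanSpace.proj (𝕜 := ℝ) i : E n →L[ℝ] ℝ).hasFDerivAt
  have h4 := ((h3.mul_const ((2 * s)⁻¹)).neg).mul h2
  have h5 : pd i (fun y : E n => -(y i / (2 * s)) * K s y) y =
      -(y i * (2 * s)⁻¹) * pd i (K s) y + K s y * -((2 * s)⁻¹) := by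
    have h6 : (fun y : E n => -(y i / (2 * s)) * K s y) =
        (fun y : E n => -(y i * (2 * s)⁻¹) * K s y) := by
      ext z
      rw [div_eq_mul_inv]
    unfold pd
    rw [h6]
    have h7 : fderiv ℝ (fun y : E n => -(y i * (2 * s)⁻¹) * K s y) y = _ := h4.fderiv
    rw [h7]
    have h8 : (EuclideanSpace.proj (𝕜 := ℝ) i : E n →L[ℝ] ℝ) (ee i) = 1 := by
      simp [ee]
    simp only [add_apply, FunLike.coe_smul, Pi.smul_apply, neg_apply, h8, smul_eq_mul, Pi.neg_apply]
    ring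
  rw [h1, h5, K_pd hs]
  field_simp
  ring

theorem lap_K {s : ℝ} (hs : 0 < s) (y : E n) :
    lap (K s) y = (‖y‖ ^ 2 / (4 * s ^ 2) - n / (2 * s)) * K s y := by
  unfold lap
  simp_rw [K_pd2 hs]
  rw [← Finset.sum_mul, Finset.sum_sub_distrib, ← Finset.sum_div, EuclideanSpace.norm_sq_eq]
  congr 1
  simp [div_eq_mul_inv]

/-- integration by parts against a test function -/
theorem ibp {u g : E n → ℝ} (hu : ContDiff ℝ ∞ u) (hg : TF g) (i : Fin n) :
    ∫ y, u y * pd i g y = -∫ y, pd i u y * g y := by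
  have h1 : Continuous (pd i u) := by
    have h1 : ContDiff ℝ ∞ (fderiv ℝ u) := hu.fderiv_right (m := ∞) (by simp)
    exact (h1.clm_apply contDiff_const).continuous
  refine integral_mul_fderiv_eq_neg_fderiv_mul_of_integrable (v := ee i) ?_ ?_ ?_ ?_ ?_
  · exact (h1.mul hg.1.continuous).integrable_of_hasCompactSupport hg.2.mul_left
  · exact (hu.continuous.mul (hg.pd i).1.continuous).integrable_of_hasCompactSupport
      (hg.pd i).2.mul_left
  · exact (hu.continuous.mul hg.1.continuous).integrable_of_hasCompactSupport hg.2.mul_left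
  · exact fun x _ => (hu.differentiable (by simp)) x
  · exact fun x _ => (hg.1.differentiable (by simp)) x

theorem pd_smooth {u : E n → ℝ} (hu : ContDiff ℝ ∞ u) (i : Fin n) : ContDiff ℝ ∞ (pd i u) := by
  have h1 : ContDiff ℝ ∞ (fderiv ℝ u) := hu.fderiv_right (m := ∞) (by simp)
  exact h1.clm_apply contDiff_const

/-- reflection and translation -/
theorem TF.refl {f : E n → ℝ} (hf : TF f) (x : E n) : TF (fun y => f (x - y)) := by
  refine ⟨hf.1.comp (contDiff_const.sub contDiff_id), ?_⟩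
  have h := hf.2.comp_homeomorph ((Homeomorph.subLeft x))
  exact h

theorem pd_refl {f : E n → ℝ} (hf : TF f) (x : E n) (i : Fin n) (y : E n) :
    pd i (fun y => f (x - y)) y = -pd i f (x - y) := by
  have h1 : HasFDerivAt f (fderiv ℝ f (x - y)) (x - y) :=
    ((hf.1.differentiable (by simp)) (x - y)).hasFDerivAt
  have h2 : HasFDerivAt (fun y : E n => x - y) (-ContinuousLinearMap.id ℝ (E n)) y :=
    (hasFDerivAt_id y).const_sub x
  have h3 := h1.comp y h2
  unfold pd
  have h4 : fderiv ℝ (fun y => f (x - y)) y = _ := h3.fderiv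
  rw [h4]
  simp

theorem ibp2 {f : E n → ℝ} (hf : TF f) (s : ℝ) (i : Fin n) (x : E n) :
    heat (pd i (pd i f)) s x = ∫ y, pd i (pd i (K s)) y * f (x - y) := by
  have h1 : ∀ y, pd i (pd i (fun y => f (x - y))) y = pd i (pd i f) (x - y) := by
    intro y
    have h2 : pd i (fun y => f (x - y)) = fun y => -pd i f (x - y) := by
      ext z
      exact pd_refl hf x i z
    rw [h2]
    have h3 : pd i (fun y => -pd i f (x - y)) y = -pd i (fun y => pd i f (x - y)) y := by
      unfold pd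
      rw [fderiv_fun_neg]
      rfl
    rw [h3, pd_refl (hf.pd i) x i y]
    ring
  have h4 := ibp (K_smooth s) ((hf.refl x).pd i) i
  have h5 := ibp (pd_smooth (K_smooth s) i) (hf.refl x) i
  unfold heat
  simp_rw [← h1]
  rw [h4, h5, neg_neg]

end Pool.Agent.H31.TRI
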