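import Pool.Agent.H31.TRI.HEQ

/-! # The heat equation, continued -/

set_option autoImplicit false

namespace Pool.Agent.H31.TRI

open MeasureTheory Set Filter Topology
open scoped ContDiff Convolution

variable {n : ℕ}

theorem K_cont2 : ContinuousOn (fun p : ℝ × E n => K p.1 p.2) (Ioi 0 ×ˢ univ) := by
  unfold K
  refine ContinuousOn.mul ?_ ?_
  · refine ContinuousOn.rpow_const (by fun_prop) ?_
    rintro ⟨t, y⟩ ⟨h1, -⟩
    left
    have : (0 : ℝ) < t := h1
    positivity
  · refine Real.continuous_exp.comp_continuousOn (ContinuousOn.neg (ContinuousOn.div (by fun_prop)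
      (by fun_prop) ?_))
    rintro ⟨t, y⟩ ⟨h1, -⟩
    have : (0 : ℝ) < t := h1
    positivity

theorem pf_HEQ : T_HEQ := by
  intro n f s x hs hf
  set g : E n → ℝ := fun y => f (x - y) with hg
  have hgt : TF g := hf.refl x
  let F : ℝ → E n → ℝ := fun t y => K t y * g y
  let F' : ℝ → E n → ℝ := fun t y => (‖y‖ ^ 2 / (4 * t ^ 2) - n / (2 * t)) * K t y * g y
  have hI : Icc (s / 2) (2 * s) ∈ 𝓝 s := Icc_mem_nhds (by linarith) (by linarith)
  have hc : ContinuousOn (fun p : ℝ × E n => F' p.1 p.2) (Icc (s / 2) (2 * s) ×ˢ tsupport g) := by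
    have h1 : ContinuousOn (fun p : ℝ × E n => K p.1 p.2) (Icc (s / 2) (2 * s) ×ˢ tsupport g) := by
      refine K_cont2.mono ?_
      rintro ⟨t, y⟩ ⟨h1, -⟩
      exact ⟨by have := h1.1; show (0 : ℝ) < t; linarith, mem_univ _⟩
    refine ContinuousOn.mul (ContinuousOn.mul (ContinuousOn.sub (ContinuousOn.div (by fun_prop)
      (by fun_prop) ?_) (ContinuousOn.div (by fun_prop) (by fun_prop) ?_)) h1)
      (hgt.1.continuous.comp continuous_snd).continuousOn
    · rintro ⟨t, y⟩ ⟨h1, -⟩
      have : (0 : ℝ) < t := by have := h1.1; linarith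
      positivity
    · rintro ⟨t, y⟩ ⟨h1, -⟩
      have : (0 : ℝ) < t := by have := h1.1; linarith
      positivity
  obtain ⟨C, hC⟩ := (isCompact_Icc.prod hgt.2.isCompact).exists_bound_of_continuousOn hc
  have h1 := hasDerivAt_integral_of_dominated_loc_of_deriv_le (μ := (volume : Measure (E n)))
    (F := F) (F' := F') (x₀ := s) (bound := (tsupport g).indicator (fun _ => C)) hI
    (Eventually.of_forall fun t => ((K_cont t).mul hgt.1.continuous).aestronglyMeasurable)
    (((K_cont s).mul hgt.1.continuous).integrable_of_hasCompactSupport hgt.2.mul_left)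
    ?_ ?_ ?_ ?_
  · have h2 : ∫ y, F' s y = heat (lap f) s x := by
      have h3 : ∀ y, F' s y = ∑ i, pd i (pd i (K s)) y * g y := by
        intro y
        rw [← Finset.sum_mul]
        exact congrArg (· * g y) (lap_K hs y).symm
      have h4 : ∀ i : Fin n, Integrable (fun y => pd i (pd i (K s)) y * g y) := fun i =>
        ((pd_smooth (pd_smooth (K_smooth s) i) i).continuous.mul
          hgt.1.continuous).integrable_of_hasCompactSupport hgt.2.mul_left
      simp_rw [h3]
      rw [integral_finsetSum _ fun i _ => h4 i]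
      simp_rw [hg, ← ibp2 hf s _ x]
      unfold heat lap
      rw [← integral_finsetSum]
      · simp_rw [Finset.mul_sum]
      · intro i _
        exact ((K_cont s).mul ((hf.pd i).pd i |>.refl x).1.continuous).integrable_of_hasCompactSupport
          ((hf.pd i).pd i |>.refl x).2.mul_left
    rw [← h2]
    exact h1.2
  · have h5 : Continuous (F' s) := by
      have := K_cont (n := n) s
      have := hgt.1.continuous
      simp only [F']
      fun_prop
    exact h5.aestronglyMeasurable
  · refine Eventually.of_forall fun y t ht => ?_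
    by_cases hy : y ∈ tsupport g
    · rw [indicator_of_mem hy]
      exact hC (t, y) ⟨ht, hy⟩
    · rw [indicator_of_notMem hy]
      simp [F', image_eq_zero_of_notMem_tsupport hy]
  · exact (integrable_indicator_iff hgt.2.isCompact.measurableSet).mpr
      (integrableOn_const hgt.2.isCompact.measure_lt_top.ne)
  · refine Eventually.of_forall fun y t ht => ?_
    have : (0 : ℝ) < t := by have := ht.1; linarith
    exact (K_deriv this y).mul_const (g y)

end Pool.Agent.H31.TRI
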