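import Pool.Agent.H31.TRI.ENE

/-! # The heat identity -/

set_option autoImplicit false

namespace Pool.Agent.H31.TRI

open MeasureTheory Set Filter Topology
open scoped ContDiff Convolution

variable {n : ℕ}

/-- the integrand of the heat identity -/
noncomputable def hidW (b g : E n → ℝ) (G : Fin n → E n → ℝ) (s : ℝ) (x : E n) : ℝ :=
  ∑ i, ∑ j, (heat (pd i b) s x * heat (pd i (G j)) s x * heat (pd j g) s x
      + heat (pd i b) s x * heat (G j) s x * heat (pd j (pd i g)) s x
      - heat (pd j b) s x * heat (pd i (G j)) s x * heat (pd i g) s x)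

theorem div_pd {G : Fin n → E n → ℝ} (hG : ∀ i, TF (G i)) (hdiv : ∀ x, ∑ i, pd i (G i) x = 0)
    (i : Fin n) (x : E n) : ∑ j, pd j (pd i (G j)) x = 0 := by
  have h1 : ∀ j, pd j (pd i (G j)) = pd i (pd j (G j)) := fun j => pd_comm (hG j) j i
  simp_rw [h1]
  have h2 : (fun x => ∑ j, pd j (G j) x) = fun _ => 0 := funext hdiv
  have h3 : pd i (fun x => ∑ j, pd j (G j) x) x = ∑ j, pd i (pd j (G j)) x := by
    show fderiv ℝ (fun x => ∑ j, pd j (G j) x) x (ee i) = ∑ j, fderiv ℝ (pd j (G j)) x (ee i)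
    rw [fderiv_fun_sum fun j _ => ((((hG j).pd j).1.differentiable (by simp)) x)]
    simp only [sum_apply]
  rw [← h3, h2]
  unfold pd
  simp

theorem hid_ij (hS : T_SUP) (hL : T_L12) {b v w : E n → ℝ} (hb : TF b) (hv : TF v) (hw : TF w)
    {s : ℝ} (hs : 0 < s) (i : Fin n) :
    (∫ x, heat (pd i (pd i b)) s x * heat v s x * heat w s x) +
    (∫ x, heat b s x * heat (pd i (pd i v)) s x * heat w s x) +
    (∫ x, heat b s x * heat v s x * heat (pd i (pd i w)) s x) =
    -(2 * ((∫ x, heat (pd i b) s x * heat (pd i v) s x * heat w s x)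
      + (∫ x, heat (pd i b) s x * heat v s x * heat (pd i w) s x)
      + ∫ x, heat b s x * heat (pd i v) s x * heat (pd i w) s x)) := by
  have h1 := ibp3 hS hL (hb.pd i) hv hw hs i
  have h2 := ibp3 hS hL (hv.pd i) hb hw hs i
  have h3 := ibp3 hS hL (hw.pd i) hb hv hs i
  have e1 : ∀ f g h : E n → ℝ, ∫ x, heat f s x * heat g s x * heat h s x =
      ∫ x, heat g s x * heat f s x * heat h s x := by
    intro f g h
    congr 1
    ext x
    ring
  have e2 : ∀ f g h : E n → ℝ, ∫ x, heat f s x * heat g s x * heat h s x =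
      ∫ x, heat g s x * heat h s x * heat f s x := by
    intro f g h
    congr 1
    ext x
    ring
  rw [e1 (pd i (pd i v)) b w, e1 (pd i v) (pd i b) w, e1 (pd i v) b (pd i w)] at h2
  rw [e2 (pd i (pd i w)) b v, e2 (pd i w) (pd i b) v, e2 (pd i w) b (pd i v)] at h3
  rw [h1, h2, h3]
  ring

theorem hid_third (hS : T_SUP) (hL : T_L12) {b g : E n → ℝ} {G : Fin n → E n → ℝ} (hb : TF b)
    (hg : TF g) (hG : ∀ i, TF (G i)) (hdiv : ∀ x, ∑ i, pd i (G i) x = 0) {s : ℝ} (hs : 0 < s)
    (i : Fin n) :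
    ∑ j, ∫ x, heat b s x * heat (pd i (G j)) s x * heat (pd j (pd i g)) s x =
      -∑ j, ∫ x, heat (pd j b) s x * heat (pd i (G j)) s x * heat (pd i g) s x := by
  have h1 : ∀ j, ∫ x, heat b s x * heat (pd i (G j)) s x * heat (pd j (pd i g)) s x =
      -(∫ x, heat (pd j b) s x * heat (pd i (G j)) s x * heat (pd i g) s x) -
        ∫ x, heat (pd i g) s x * heat b s x * heat (pd j (pd i (G j))) s x := by
    intro j
    have h2 := ibp3 hS hL (hg.pd i) hb ((hG j).pd i) hs j
    have e1 : ∫ x, heat (pd j (pd i g)) s x * heat b s x * heat (pd i (G j)) s x =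
        ∫ x, heat b s x * heat (pd i (G j)) s x * heat (pd j (pd i g)) s x := by
      congr 1
      ext x
      ring
    have e2 : ∫ x, heat (pd i g) s x * heat (pd j b) s x * heat (pd i (G j)) s x =
        ∫ x, heat (pd j b) s x * heat (pd i (G j)) s x * heat (pd i g) s x := by
      congr 1
      ext x
      ring
    rw [← e1, h2, e2]
  simp_rw [h1]
  rw [Finset.sum_sub_distrib, Finset.sum_neg_distrib]
  have h3 : ∑ j, ∫ x, heat (pd i g) s x * heat b s x * heat (pd j (pd i (G j))) s x = 0 := by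
    rw [← integral_finsetSum _ fun j _ => int3 hS hL (hg.pd i) hb (((hG j).pd i).pd j) hs]
    have h4 : ∀ x, ∑ j, heat (pd i g) s x * heat b s x * heat (pd j (pd i (G j))) s x = 0 := by
      intro x
      rw [← Finset.mul_sum, ← heat_sum Finset.univ (fun j _ => ((hG j).pd i).pd j)]
      have h5 : (fun x => ∑ j, pd j (pd i (G j)) x) = fun _ => 0 := funext (div_pd hG hdiv i)
      rw [h5]
      simp [heat]
    simp_rw [h4]
    simp
  rw [h3, sub_zero]

theorem hid_space (hS : T_SUP) (hL : T_L12) {b g : E n → ℝ} {G : Fin n → E n → ℝ} (hb : TF b)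
    (hg : TF g) (hG : ∀ i, TF (G i)) (hdiv : ∀ x, ∑ i, pd i (G i) x = 0) {s : ℝ} (hs : 0 < s) :
    ∫ x, ∑ j, (heat (lap b) s x * heat (G j) s x * heat (pd j g) s x
      + heat b s x * heat (lap (G j)) s x * heat (pd j g) s x
      + heat b s x * heat (G j) s x * heat (lap (pd j g)) s x) = -(2 * ∫ x, hidW b g G s x) := by
  have i3 := fun {u v w : E n → ℝ} (hu : TF u) (hv : TF v) (hw : TF w) => int3 hS hL hu hv hw hs
  have h1 : ∫ x, ∑ j, (heat (lap b) s x * heat (G j) s x * heat (pd j g) s x
      + heat b s x * heat (lap (G j)) s x * heat (pd j g) s x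
      + heat b s x * heat (G j) s x * heat (lap (pd j g)) s x) =
      ∑ j, ∑ i, ((∫ x, heat (pd i (pd i b)) s x * heat (G j) s x * heat (pd j g) s x) +
    (∫ x, heat b s x * heat (pd i (pd i (G j))) s x * heat (pd j g) s x) +
    (∫ x, heat b s x * heat (G j) s x * heat (pd i (pd i (pd j g))) s x)) := by
    rw [integral_finsetSum]
    · refine Finset.sum_congr rfl fun j _ => ?_
      have h2 : ∀ x, heat (lap b) s x * heat (G j) s x * heat (pd j g) s x
          + heat b s x * heat (lap (G j)) s x * heat (pd j g) s x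
          + heat b s x * heat (G j) s x * heat (lap (pd j g)) s x =
          ∑ i, (heat (pd i (pd i b)) s x * heat (G j) s x * heat (pd j g) s x +
            heat b s x * heat (pd i (pd i (G j))) s x * heat (pd j g) s x +
            heat b s x * heat (G j) s x * heat (pd i (pd i (pd j g))) s x) := by
        intro x
        rw [heat_lap hb, heat_lap (hG j), heat_lap (hg.pd j), Finset.sum_add_distrib,
          Finset.sum_add_distrib]
        simp only [Finset.sum_mul, Finset.mul_sum]
      simp_rw [h2]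
      rw [integral_finsetSum]
      · refine Finset.sum_congr rfl fun i _ => ?_
        rw [integral_add, integral_add]
        · exact i3 ((hb.pd i).pd i) (hG j) (hg.pd j)
        · exact i3 hb (((hG j).pd i).pd i) (hg.pd j)
        · exact (i3 ((hb.pd i).pd i) (hG j) (hg.pd j)).add (i3 hb (((hG j).pd i).pd i) (hg.pd j))
        · exact i3 hb (hG j) (((hg.pd j).pd i).pd i)
      · intro i _
        exact ((i3 ((hb.pd i).pd i) (hG j) (hg.pd j)).add
          (i3 hb (((hG j).pd i).pd i) (hg.pd j))).add (i3 hb (hG j) (((hg.pd j).pd i).pd i))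
    · intro j _
      exact ((i3 hb.lap (hG j) (hg.pd j)).add (i3 hb (hG j).lap (hg.pd j))).add
        (i3 hb (hG j) (hg.pd j).lap)
  have h3 : ∫ x, hidW b g G s x = ∑ i, ∑ j,
      ((∫ x, heat (pd i b) s x * heat (pd i (G j)) s x * heat (pd j g) s x)
      + (∫ x, heat (pd i b) s x * heat (G j) s x * heat (pd j (pd i g)) s x)
      - ∫ x, heat (pd j b) s x * heat (pd i (G j)) s x * heat (pd i g) s x) := by
    unfold hidW
    have h4 : ∀ i j, Integrable (fun x =>
        heat (pd i b) s x * heat (pd i (G j)) s x * heat (pd j g) s x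
        + heat (pd i b) s x * heat (G j) s x * heat (pd j (pd i g)) s x
        - heat (pd j b) s x * heat (pd i (G j)) s x * heat (pd i g) s x) := fun i j =>
      ((i3 (hb.pd i) ((hG j).pd i) (hg.pd j)).add (i3 (hb.pd i) (hG j) ((hg.pd i).pd j))).sub
        (i3 (hb.pd j) ((hG j).pd i) (hg.pd i))
    rw [integral_finsetSum _ fun i _ => integrable_finsetSum _ fun j _ => h4 i j]
    refine Finset.sum_congr rfl fun i _ => ?_
    rw [integral_finsetSum _ fun j _ => h4 i j]
    refine Finset.sum_congr rfl fun j _ => ?_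
    rw [integral_sub, integral_add]
    · exact i3 (hb.pd i) ((hG j).pd i) (hg.pd j)
    · exact i3 (hb.pd i) (hG j) ((hg.pd i).pd j)
    · exact (i3 (hb.pd i) ((hG j).pd i) (hg.pd j)).add (i3 (hb.pd i) (hG j) ((hg.pd i).pd j))
    · exact i3 (hb.pd j) ((hG j).pd i) (hg.pd i)
  rw [h1, h3, Finset.sum_comm]
  have h5 : ∀ i, ∑ j, ((∫ x, heat (pd i (pd i b)) s x * heat (G j) s x * heat (pd j g) s x) +
    (∫ x, heat b s x * heat (pd i (pd i (G j))) s x * heat (pd j g) s x) +
    (∫ x, heat b s x * heat (G j) s x * heat (pd i (pd i (pd j g))) s x)) =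
    -(2 * ∑ j, ((∫ x, heat (pd i b) s x * heat (pd i (G j)) s x * heat (pd j g) s x)
      + (∫ x, heat (pd i b) s x * heat (G j) s x * heat (pd j (pd i g)) s x)
      - ∫ x, heat (pd j b) s x * heat (pd i (G j)) s x * heat (pd i g) s x)) := by
    intro i
    have h6 := hid_third hS hL hb hg hG hdiv hs i
    have h7 : ∀ j, (∫ x, heat (pd i (pd i b)) s x * heat (G j) s x * heat (pd j g) s x) +
      (∫ x, heat b s x * heat (pd i (pd i (G j))) s x * heat (pd j g) s x) +
      (∫ x, heat b s x * heat (G j) s x * heat (pd i (pd i (pd j g))) s x) =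
      -(2 * ((∫ x, heat (pd i b) s x * heat (pd i (G j)) s x * heat (pd j g) s x)
      + (∫ x, heat (pd i b) s x * heat (G j) s x * heat (pd j (pd i g)) s x)
      + ∫ x, heat b s x * heat (pd i (G j)) s x * heat (pd j (pd i g)) s x)) := by
      intro j
      rw [pd_comm hg j i]
      exact hid_ij hS hL hb (hG j) (hg.pd j) hs i
    simp_rw [h7]
    rw [Finset.sum_neg_distrib, ← Finset.mul_sum, Finset.sum_add_distrib, h6,
      Finset.sum_sub_distrib]
    ring
  simp_rw [h5]
  rw [Finset.sum_neg_distrib, ← Finset.mul_sum]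

end Pool.Agent.H31.TRI
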