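import Pool.Agent.H31.TRI.SLB

/-! # Integration by parts for heat extensions -/

set_option autoImplicit false

namespace Pool.Agent.H31.TRI

open MeasureTheory Set Filter Topology
open scoped ContDiff Convolution

variable {n : ℕ}

theorem heat_cont {f : E n → ℝ} (hf : TF f) (s : ℝ) : Continuous (heat f s) :=
  (heat_contDiff hf s).continuous

theorem int_of_bound (hL : T_L12) {f : E n → ℝ} (hf : TF f) {s : ℝ} (hs : 0 < s) {W : E n → ℝ}
    (hW : Continuous W) {C : ℝ} (hb : ∀ x, |W x| ≤ C * |heat f s x|) : Integrable W := by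
  refine Integrable.mono' ((hL n f s hs hf).1.norm.const_mul C) hW.aestronglyMeasurable ?_
  exact Eventually.of_forall hb

theorem int2 (hS : T_SUP) (hL : T_L12) {f g : E n → ℝ} (hf : TF f) (hg : TF g) {s : ℝ}
    (hs : 0 < s) : Integrable (fun x => heat f s x * heat g s x) := by
  obtain ⟨C, hC, hb⟩ := heat_bdd hS hg
  refine int_of_bound hL hf hs ((heat_cont hf s).mul (heat_cont hg s)) (C := C) fun x => ?_
  rw [abs_mul, mul_comm C]
  exact mul_le_mul_of_nonneg_left (hb s x hs) (abs_nonneg _)

theorem int3 (hS : T_SUP) (hL : T_L12) {f g h : E n → ℝ} (hf : TF f) (hg : TF g) (hh : TF h)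
    {s : ℝ} (hs : 0 < s) : Integrable (fun x => heat f s x * heat g s x * heat h s x) := by
  obtain ⟨C, hC, hb⟩ := heat_bdd hS hg
  obtain ⟨D, hD, hd⟩ := heat_bdd hS hh
  refine int_of_bound hL hf hs (((heat_cont hf s).mul (heat_cont hg s)).mul (heat_cont hh s))
    (C := C * D) fun x => ?_
  rw [abs_mul, abs_mul]
  have h1 := hb s x hs
  have h2 := hd s x hs
  have h3 : |heat g s x| * |heat h s x| ≤ C * D :=
    mul_le_mul h1 h2 (abs_nonneg _) hC
  nlinarith [abs_nonneg (heat f s x)]

theorem ibpp (hS : T_SUP) (hL : T_L12) {u v : E n → ℝ} (hu : TF u) (hv : TF v) {s : ℝ}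
    (hs : 0 < s) (i : Fin n) :
    ∫ x, heat u s x * heat (pd i v) s x = -∫ x, heat (pd i u) s x * heat v s x := by
  have h1 : ∀ f : E n → ℝ, TF f → ∀ x, fderiv ℝ (heat f s) x (ee i) = heat (pd i f) s x :=
    fun f hf x => pd_heat hf s i x
  have h2 := integral_mul_fderiv_eq_neg_fderiv_mul_of_integrable (μ := (volume : Measure (E n)))
    (f := heat u s) (g := heat v s) (v := ee i) ?_ ?_ ?_
    (fun x _ => ((heat_contDiff hu s).differentiable (by simp)) x)
    (fun x _ => ((heat_contDiff hv s).differentiable (by simp)) x)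
  · simpa only [h1 u hu, h1 v hv] using h2
  · simpa only [h1 u hu] using int2 hS hL (hu.pd i) hv hs
  · simpa only [h1 v hv] using int2 hS hL hu (hv.pd i) hs
  · exact int2 hS hL hu hv hs

theorem ibp3 (hS : T_SUP) (hL : T_L12) {u v w : E n → ℝ} (hu : TF u) (hv : TF v) (hw : TF w)
    {s : ℝ} (hs : 0 < s) (i : Fin n) :
    ∫ x, heat (pd i u) s x * heat v s x * heat w s x =
      -(∫ x, heat u s x * heat (pd i v) s x * heat w s x)
        - ∫ x, heat u s x * heat v s x * heat (pd i w) s x := by
  have h1 : ∀ f : E n → ℝ, TF f → ∀ x, fderiv ℝ (heat f s) x (ee i) = heat (pd i f) s x :=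
    fun f hf x => pd_heat hf s i x
  have hP : ∀ x, fderiv ℝ (fun y => heat v s y * heat w s y) x (ee i) =
      heat (pd i v) s x * heat w s x + heat v s x * heat (pd i w) s x := by
    intro x
    have h3 := ((heat_contDiff hv s).differentiable (by simp) x).hasFDerivAt
    have h4 := ((heat_contDiff hw s).differentiable (by simp) x).hasFDerivAt
    have h5 : fderiv ℝ (fun y => heat v s y * heat w s y) x = _ := (h3.mul h4).fderiv
    rw [h5]
    simp only [add_apply, FunLike.coe_smul, Pi.smul_apply, smul_eq_mul, h1 v hv, h1 w hw]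
    ring
  have hi1 := int3 hS hL hu (hv.pd i) hw hs
  have hi2 := int3 hS hL hu hv (hw.pd i) hs
  have h2 := integral_mul_fderiv_eq_neg_fderiv_mul_of_integrable (μ := (volume : Measure (E n)))
    (f := heat u s) (g := fun y => heat v s y * heat w s y) (v := ee i) ?_ ?_ ?_
    (fun x _ => ((heat_contDiff hu s).differentiable (by simp)) x)
    (fun x _ => (((heat_contDiff hv s).mul (heat_contDiff hw s)).differentiable (by simp)) x)
  · simp only [h1 u hu, hP] at h2
    have h6 : ∫ x, heat (pd i u) s x * heat v s x * heat w s x =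
        -∫ x, heat u s x * (heat (pd i v) s x * heat w s x + heat v s x * heat (pd i w) s x) := by
      rw [h2, neg_neg]
      simp only [mul_assoc]
    rw [h6]
    have h7 : ∀ x, heat u s x * (heat (pd i v) s x * heat w s x + heat v s x * heat (pd i w) s x) =
        heat u s x * heat (pd i v) s x * heat w s x +
          heat u s x * heat v s x * heat (pd i w) s x := fun x => by ring
    simp only [h7]
    rw [integral_add hi1 hi2]
    ring
  · simp only [h1 u hu]
    simpa only [mul_assoc] using int3 hS hL (hu.pd i) hv hw hs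
  · simp only [hP]
    refine (hi1.add hi2).congr (Eventually.of_forall fun x => ?_)
    simp only [Pi.add_apply]
    ring
  · simpa only [mul_assoc] using int3 hS hL hu hv hw hs

/-! ### linearity -/

theorem heat_int (f : E n → ℝ) (hf : TF f) (s : ℝ) (x : E n) :
    Integrable (fun y => K s y * f (x - y)) :=
  ((K_cont s).mul (hf.refl x).1.continuous).integrable_of_hasCompactSupport (hf.refl x).2.mul_left

theorem TF.add {f g : E n → ℝ} (hf : TF f) (hg : TF g) : TF (fun x => f x + g x) :=
  ⟨hf.1.add hg.1, hf.2.add hg.2⟩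

theorem TF.sum {ι : Type*} (S : Finset ι) {f : ι → E n → ℝ} (hf : ∀ i ∈ S, TF (f i)) :
    TF (fun x => ∑ i ∈ S, f i x) := by
  classical
  induction S using Finset.induction_on with
  | empty =>
    simp only [Finset.sum_empty]
    exact ⟨contDiff_const, HasCompactSupport.zero⟩
  | insert a S ha ih =>
    simp only [Finset.sum_insert ha]
    exact (hf a (by simp)).add (ih fun i hi => hf i (by simp [hi]))

theorem heat_sum {ι : Type*} (S : Finset ι) {f : ι → E n → ℝ} (hf : ∀ i ∈ S, TF (f i)) (s : ℝ)
    (x : E n) : heat (fun x => ∑ i ∈ S, f i x) s x = ∑ i ∈ S, heat (f i) s x := by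
  unfold heat
  simp_rw [Finset.mul_sum]
  rw [integral_finsetSum _ fun i hi => heat_int (f i) (hf i hi) s x]

theorem TF.lap {f : E n → ℝ} (hf : TF f) : TF (lap f) :=
  TF.sum Finset.univ fun i _ => (hf.pd i).pd i

theorem heat_lap {f : E n → ℝ} (hf : TF f) (s : ℝ) (x : E n) :
    heat (lap f) s x = ∑ i, heat (pd i (pd i f)) s x :=
  heat_sum Finset.univ (fun i _ => (hf.pd i).pd i) s x

end Pool.Agent.H31.TRI
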