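import Pool.Agent.H31.TRI.HEQ2

/-! # Slabs: Fubini and the fundamental theorem of calculus -/

set_option autoImplicit false

namespace Pool.Agent.H31.TRI

open MeasureTheory Set Filter Topology
open scoped ContDiff Convolution

variable {n : ℕ}

/-- half space -/
abbrev HS (n : ℕ) : Set (ℝ × E n) := Ioi 0 ×ˢ univ

theorem TF.bdd {f : E n → ℝ} (hf : TF f) : ∃ C : ℝ, ∀ x, |f x| ≤ C := by
  obtain ⟨C, hC⟩ := hf.1.continuous.bounded_above_of_compact_support hf.2
  exact ⟨C, hC⟩

theorem heat_bdd (hS : T_SUP) {f : E n → ℝ} (hf : TF f) :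
    ∃ C : ℝ, 0 ≤ C ∧ ∀ s x, 0 < s → |heat f s x| ≤ C := by
  obtain ⟨C, hC⟩ := hf.bdd
  exact ⟨C, (abs_nonneg _).trans (hC 0), fun s x hs => hS n f C s x hs hf.1.continuous hC⟩

theorem slab_sub {a A : ℝ} (ha : 0 < a) : Ioc a A ×ˢ (univ : Set (E n)) ⊆ HS n := by
  rintro ⟨s, x⟩ ⟨h1, -⟩
  exact ⟨ha.trans h1.1, mem_univ _⟩

theorem slab_meas (a A : ℝ) : MeasurableSet (Ioc a A ×ˢ (univ : Set (E n))) :=
  measurableSet_Ioc.prod MeasurableSet.univ

/-- a heat extension is integrable over slabs -/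
theorem heat_slab (hC : T_CONT) (hL : T_L12) {f : E n → ℝ} (hf : TF f) {a A : ℝ} (ha : 0 < a) :
    IntegrableOn (fun p : ℝ × E n => heat f p.1 p.2) (Ioc a A ×ˢ univ) := by
  have h1 : AEStronglyMeasurable (fun p : ℝ × E n => heat f p.1 p.2)
      ((volume.restrict (Ioc a A)).prod (volume.restrict (univ : Set (E n)))) := by
    rw [Measure.prod_restrict]
    exact ((hC n f hf).mono (slab_sub ha)).aestronglyMeasurable (slab_meas a A)
  have h2 : IntegrableOn (fun p : ℝ × E n => heat f p.1 p.2) (Ioc a A ×ˢ univ)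
      ((volume : Measure ℝ).prod (volume : Measure (E n))) := by
    rw [IntegrableOn, ← Measure.prod_restrict, integrable_prod_iff h1]
    constructor
    · rw [ae_restrict_iff' measurableSet_Ioc]
      refine Eventually.of_forall fun s hs => ?_
      simpa using (hL n f s (ha.trans hs.1) hf).1
    · refine Integrable.mono' (integrable_const (∫ x, |f x|)) ?_ ?_
      · exact h1.norm.integral_prod_right'
      · rw [ae_restrict_iff' measurableSet_Ioc]
        refine Eventually.of_forall fun s hs => ?_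
        have h3 := (hL n f s (ha.trans hs.1) hf).2.1
        rw [Real.norm_of_nonneg (by positivity)]
        simpa using h3
  exact h2

theorem slab_bound (hC : T_CONT) (hL : T_L12) {f : E n → ℝ} (hf : TF f) {a A C : ℝ} (ha : 0 < a)
    {W : ℝ × E n → ℝ} (hW : ContinuousOn W (HS n))
    (hb : ∀ s x, 0 < s → |W (s, x)| ≤ C * |heat f s x|) : IntegrableOn W (Ioc a A ×ˢ univ) := by
  refine Integrable.mono' ((heat_slab hC hL hf ha (A := A)).norm.const_mul C)
    ((hW.mono (slab_sub ha)).aestronglyMeasurable (slab_meas a A)) ?_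
  rw [ae_restrict_iff' (slab_meas a A)]
  refine Eventually.of_forall fun p hp => ?_
  exact hb p.1 p.2 (ha.trans hp.1.1)

/-- Fubini and the fundamental theorem of calculus -/
theorem slab_ftc {Φ Φ' : ℝ → E n → ℝ} {a A : ℝ} (ha : 0 < a) (hA : a ≤ A)
    (hd : ∀ s x, 0 < s → HasDerivAt (fun t => Φ t x) (Φ' s x) s)
    (hc : ContinuousOn (fun p : ℝ × E n => Φ' p.1 p.2) (HS n))
    (hi : IntegrableOn (fun p : ℝ × E n => Φ' p.1 p.2) (Ioc a A ×ˢ univ))
    (h1 : Integrable (Φ a)) (h2 : Integrable (Φ A)) :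
    ∫ s in Ioc a A, ∫ x, Φ' s x = (∫ x, Φ A x) - ∫ x, Φ a x := by
  have h3 : Integrable (Function.uncurry Φ')
      ((volume.restrict (Ioc a A)).prod (volume.restrict (univ : Set (E n)))) := by
    rw [Measure.prod_restrict]
    exact hi
  rw [Measure.restrict_univ] at h3
  rw [integral_integral_swap h3, ← integral_sub h2 h1]
  refine integral_congr_ae (Eventually.of_forall fun x => ?_)
  have h4 : ContinuousOn (fun s => Φ' s x) (Icc a A) := by
    refine hc.comp (f := fun s : ℝ => (s, x)) (by fun_prop) ?_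
    intro s hs
    exact ⟨ha.trans_le hs.1, mem_univ _⟩
  show ∫ s in Ioc a A, Φ' s x = _
  rw [← intervalIntegral.integral_of_le hA]
  refine intervalIntegral.integral_eq_sub_of_hasDerivAt (f := fun t => Φ t x) ?_ ?_
  · intro s hs
    rw [uIcc_of_le hA] at hs
    exact hd s x (ha.trans_le hs.1)
  · exact (h4.mono (by rw [uIcc_of_le hA])).intervalIntegrable

/-- the slabs exhaust the half space -/
theorem slab_cover : AECover ((volume : Measure (ℝ × E n)).restrict (HS n)) atTop
    (fun k : ℕ => Ioc (1 / ((k : ℝ) + 1)) ((k : ℝ) + 1) ×ˢ (univ : Set (E n))) := by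
  refine ⟨?_, fun k => slab_meas _ _⟩
  rw [ae_restrict_iff' (measurableSet_Ioi.prod MeasurableSet.univ)]
  refine Eventually.of_forall fun p hp => ?_
  have h1 : 0 < p.1 := hp.1
  obtain ⟨k₁, hk₁⟩ := exists_nat_one_div_lt h1
  obtain ⟨k₂, hk₂⟩ := exists_nat_ge p.1
  filter_upwards [eventually_ge_atTop (max k₁ k₂)] with k hk
  have h2 : (k₁ : ℝ) ≤ k := by exact_mod_cast (le_max_left _ _).trans hk
  have h3 : (k₂ : ℝ) ≤ k := by exact_mod_cast (le_max_right _ _).trans hk
  refine ⟨⟨?_, by linarith⟩, mem_univ _⟩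
  refine lt_of_le_of_lt ?_ hk₁
  exact one_div_le_one_div_of_le (by positivity) (by linarith)

theorem slab_restrict {a A : ℝ} (ha : 0 < a) :
    ((volume : Measure (ℝ × E n)).restrict (HS n)).restrict (Ioc a A ×ˢ univ) =
      volume.restrict (Ioc a A ×ˢ univ) := by
  rw [Measure.restrict_restrict (slab_meas a A), inter_eq_left.mpr (slab_sub ha)]

end Pool.Agent.H31.TRI
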