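import Pool.Agent.H31.TRI.Defs

/-! # Derivatives of the heat extension in space -/

set_option autoImplicit false

namespace Pool.Agent.H31.TRI

open MeasureTheory Set Filter Topology
open scoped ContDiff Convolution

variable {n : ℕ}

theorem K_cont (s : ℝ) : Continuous (K s : E n → ℝ) := by
  unfold K
  fun_prop

theorem K_smooth (s : ℝ) : ContDiff ℝ ∞ (K s : E n → ℝ) := by
  unfold K
  have h1 : ContDiff ℝ ∞ (fun x : E n => ‖x‖ ^ 2) := contDiff_norm_sq ℝ
  exact contDiff_const.mul (Real.contDiff_exp.comp (h1.div_const _).neg)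

theorem heat_conv (f : E n → ℝ) (s : ℝ) :
    heat f s = (K s : E n → ℝ) ⋆[ContinuousLinearMap.mul ℝ ℝ, volume] f := by
  ext x
  simp [heat, convolution_def]

theorem TF.pd {f : E n → ℝ} (hf : TF f) (i : Fin n) : TF (pd i f) := by
  refine ⟨?_, ?_⟩
  · have h1 : ContDiff ℝ ∞ (fderiv ℝ f) := hf.1.fderiv_right (m := ∞) (by simp)
    exact h1.clm_apply contDiff_const
  · exact (hf.2.fderiv_apply (𝕜 := ℝ) (ee i))

theorem pf_TFD : T_TFD := fun _ _ i hf => hf.pd i

theorem heat_hasFDerivAt {f : E n → ℝ} (hf : TF f) (s : ℝ) (x : E n) :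
    HasFDerivAt (heat f s) (((K s : E n → ℝ) ⋆[(ContinuousLinearMap.mul ℝ ℝ).precompR (E n), volume]
      fderiv ℝ f) x) x := by
  rw [heat_conv]
  exact hf.2.hasFDerivAt_convolution_right (ContinuousLinearMap.mul ℝ ℝ)
    (K_cont s).locallyIntegrable (hf.1.of_le (by simp)) x

theorem fderiv_heat {f : E n → ℝ} (hf : TF f) (s : ℝ) (x v : E n) :
    fderiv ℝ (heat f s) x v = heat (fun y => fderiv ℝ f y v) s x := by
  rw [(heat_hasFDerivAt hf s x).fderiv, convolution_precompR_apply (ContinuousLinearMap.mul ℝ ℝ)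
    (K_cont s).locallyIntegrable (hf.2.fderiv (𝕜 := ℝ)) (hf.1.continuous_fderiv (by simp)),
    heat_conv]

theorem heat_contDiff {f : E n → ℝ} (hf : TF f) (s : ℝ) : ContDiff ℝ ∞ (heat f s) := by
  rw [heat_conv]
  exact hf.2.contDiff_convolution_right (ContinuousLinearMap.mul ℝ ℝ) (n := ⊤)
    (K_cont s).locallyIntegrable hf.1

theorem pd_heat {f : E n → ℝ} (hf : TF f) (s : ℝ) (i : Fin n) (x : E n) :
    pd i (heat f s) x = heat (pd i f) s x := fderiv_heat hf s x (ee i)

theorem pf_SPD : T_SPD := fun _ _ s _ hf =>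
  ⟨heat_contDiff hf s, fun i x => pd_heat hf s i x⟩

/-- mixed partial derivatives commute -/
theorem pd_comm {f : E n → ℝ} (hf : TF f) (i j : Fin n) : pd i (pd j f) = pd j (pd i f) := by
  ext x
  have h0 : ContDiff ℝ ∞ (fderiv ℝ f) := hf.1.fderiv_right (m := ∞) (by simp)
  have h1 : ∀ v w : E n, fderiv ℝ (fun y => fderiv ℝ f y v) x w = fderiv ℝ (fderiv ℝ f) x w v := by
    intro v w
    have h2 : HasFDerivAt (fderiv ℝ f) (fderiv ℝ (fderiv ℝ f) x) x :=
      ((h0.differentiable (by simp)) x).hasFDerivAt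
    have h3 := h2.clm_apply (hasFDerivAt_const v x)
    rw [h3.fderiv]
    simp
  have h4 : IsSymmSndFDerivAt ℝ f x :=
    (hf.1.contDiffAt (x := x)).isSymmSndFDerivAt (by simp only [minSmoothness_of_isRCLikeNormedField]; exact WithTop.coe_le_coe.mpr le_top)
  unfold pd
  rw [h1, h1]
  exact h4.eq _ _

end Pool.Agent.H31.TRI
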